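import Pool.Agent.Helper51.REC.Goals1
import Pool.Agent.Helper42.RD.VAL

/-!
# Project REC (MP_fc6b1e_nt): packet K_LOC

The group `LocS`.
-/

set_option autoImplicit false

namespace Pool.Agent.Helper9.REC

open NumberField Module IsDedekindDomain Pool.Agent.Helper51.RP Pool.Agent.Helper42.PP
open Pool.Agent.Helper42.RD Pool.Agent.Helper51.REC

variable {p : ℕ} {F : Type} [Field F] [NumberField F]

/-- `x` is close to `1`. -/
def Near (p : ℕ) {F : Type} [Field F] [NumberField F] (w : HeightOneSpectrum (𝓞 F)) (x : F) : Prop :=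
  w.valuation F (x - 1) < 1 ∧ w.valuation F (x - 1) ≤ w.valuation F (p : F) ^ 3

theorem near_one (w : HeightOneSpectrum (𝓞 F)) : Near p w (1 : F) := by
  unfold Near
  rw [sub_self, map_zero]
  exact ⟨zero_lt_one, zero_le⟩

theorem near_mul {w : HeightOneSpectrum (𝓞 F)} {x y : F} (hx : Near p w x) (hy : Near p w y) :
    Near p w (x * y) := by
  refine ⟨val_mul_sub w hx.1 hy.1, ?_⟩
  have e : x * y - 1 = (x - 1) * y + (y - 1) := by ring
  rw [e]
  refine Valuation.map_add_le _ ?_ hy.2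
  rw [map_mul, val_eq_one_of_sub w hy.1, mul_one]
  exact hx.2

theorem near_inv {w : HeightOneSpectrum (𝓞 F)} {x : F} (hx : Near p w x) : Near p w x⁻¹ := by
  refine ⟨val_inv_sub w hx.1, ?_⟩
  have h1 := val_eq_one_of_sub w hx.1
  have h0 : x ≠ 0 := by rintro rfl; rw [map_zero] at h1; exact zero_ne_one h1
  have e : x⁻¹ - 1 = -((x - 1) * x⁻¹) := by field_simp; ring
  rw [e, Valuation.map_neg, map_mul, map_inv₀, h1, inv_one, mul_one]
  exact hx.2

theorem near_pow {w : HeightOneSpectrum (𝓞 F)} {x : F} (hx : Near p w x) (n : ℕ) :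
    Near p w (x ^ n) := by
  induction n with
  | zero => rw [pow_zero]; exact near_one w
  | succ n ih => rw [pow_succ]; exact near_mul ih hx

theorem locS_iff (Z : Set (HeightOneSpectrum (𝓞 F))) (x : Fˣ) :
    LocS p Z x ↔ ∃ y : Fˣ, ∀ w ∈ Z, Near p w ((x : F) * (y : F) ^ p) := Iff.rfl

/-- K_LOC. -/
theorem k_loc (h1 : K_APP) : K_LOC := by
  intro p hp F _ _ Z _
  refine ⟨?_, ?_, ?_, ?_, ?_⟩
  · rintro x x' ⟨y, hy⟩ ⟨y', hy'⟩
    refine ⟨y * y', fun w hw => ?_⟩
    have h := near_mul (hy w hw) (hy' w hw)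
    have e : ((x * x' : Fˣ) : F) * ((y * y' : Fˣ) : F) ^ p =
        (x : F) * (y : F) ^ p * ((x' : F) * (y' : F) ^ p) := by
      push_cast; ring
    rw [e]; exact h
  · rintro x ⟨y, hy⟩
    refine ⟨y⁻¹, fun w hw => ?_⟩
    have h := near_inv (hy w hw)
    have e : ((x⁻¹ : Fˣ) : F) * ((y⁻¹ : Fˣ) : F) ^ p = ((x : F) * (y : F) ^ p)⁻¹ := by
      rw [Units.val_inv_eq_inv_val, Units.val_inv_eq_inv_val, mul_inv, inv_pow]
    rw [e]; exact h
  · intro y
    refine ⟨y⁻¹, fun w _ => ?_⟩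
    have e : ((y ^ p : Fˣ) : F) * ((y⁻¹ : Fˣ) : F) ^ p = 1 := by
      rw [Units.val_pow_eq_pow_val, Units.val_inv_eq_inv_val, ← mul_pow, mul_inv_cancel₀ y.ne_zero,
        one_pow]
    rw [e]; exact near_one w
  · rintro x ⟨y, hy⟩ W hW
    have h := val_eq_one_of_sub W (hy W hW).1
    have hne : (x : F) * (y : F) ^ p ≠ 0 := mul_ne_zero x.ne_zero (pow_ne_zero _ y.ne_zero)
    have h0 := (ordv_eq_zero_iff W hne).2 h
    rw [ordv_mul W x.ne_zero (pow_ne_zero _ y.ne_zero), ordv_pow] at h0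
    refine ⟨-ordv W (y : F), ?_⟩
    linear_combination h0
  · intro Z' hZ' hZ'1 x hx hx'
    obtain ⟨y, hy⟩ := hx
    classical
    choose! z hz using hx'
    have hz0 : ∀ W ∈ Z', z W ≠ 0 := by
      intro W hW h0
      have h := hz W hW
      rw [h0, zero_pow hp.out.ne_zero, mul_zero, zero_sub, Valuation.map_neg, map_one] at h
      exact lt_irrefl _ h
    let g : HeightOneSpectrum (𝓞 F) → Fˣ := fun W =>
      if W ∈ Z then y else if h : z W = 0 then 1 else Units.mk0 (z W) h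
    have hg : ∀ W ∈ Z ∪ Z', Near p W ((x : F) * ((g W : Fˣ) : F) ^ p) := by
      intro W hW
      by_cases hWZ : W ∈ Z
      · have e : g W = y := by simp [g, hWZ]
        rw [e]; exact hy W hWZ
      · have hWZ' : W ∈ Z' := hW.resolve_left hWZ
        have e : ((g W : Fˣ) : F) = z W := by simp [g, hWZ, hz0 W hWZ']
        rw [e]
        refine ⟨hz W hWZ', ?_⟩
        rw [hZ'1 W hWZ', one_pow]
        exact (hz W hWZ').le
    obtain ⟨t, ht⟩ := h1 p F (Z ∪ Z') (Set.Finite.union ‹Z.Finite› hZ') g 3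
    refine ⟨t, fun W hW => ?_⟩
    have h2 : Near p W ((t : F) * ((g W)⁻¹ : Fˣ)) := ht W hW
    have h3 := near_mul (hg W hW) (near_pow h2 p)
    have e : (x : F) * (t : F) ^ p =
        (x : F) * ((g W : Fˣ) : F) ^ p * ((t : F) * ((g W)⁻¹ : Fˣ)) ^ p := by
      have h4 := (g W).ne_zero
      rw [Units.val_inv_eq_inv_val, mul_assoc, ← mul_pow, mul_left_comm, mul_inv_cancel₀ h4, mul_one]
    rw [e]; exact h3

end Pool.Agent.Helper9.REC
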